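import Pool.Agent.helper67.RG.Spec

/-! Row MIN of rg: the algebra homomorphism from the `2 × 2` matrices. -/

namespace Pool.Agent.RG.MIN

open Matrix Polynomial Pool.Agent.GO Pool.Agent.AR

section two

variable {F : Type*} [Field F]

theorem rk1 (n Z : Matrix (Fin 2) (Fin 2) F) (h : n.det = 0) :
    n * Z * n = (Z * n).trace • n := by
  rw [Matrix.det_fin_two] at h
  ext i j
  fin_cases i <;> fin_cases j
  · simp [Matrix.mul_apply, Fin.sum_univ_two, Matrix.trace_fin_two]
    linear_combination (-(Z 1 1)) * h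
  · simp [Matrix.mul_apply, Fin.sum_univ_two, Matrix.trace_fin_two]
    linear_combination (Z 0 1) * h
  · simp [Matrix.mul_apply, Fin.sum_univ_two, Matrix.trace_fin_two]
    linear_combination (Z 1 0) * h
  · simp [Matrix.mul_apply, Fin.sum_univ_two, Matrix.trace_fin_two]
    linear_combination (-(Z 0 0)) * h

theorem sq2 (Z : Matrix (Fin 2) (Fin 2) F) (h : Z.trace = 0) :
    Z * Z = (-Z.det) • (1 : Matrix (Fin 2) (Fin 2) F) := by
  rw [Matrix.trace_fin_two] at h
  have h1 : Z 1 1 = - Z 0 0 := by linear_combination h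
  ext i j
  fin_cases i <;> fin_cases j
  · simp [Matrix.mul_apply, Fin.sum_univ_two, Matrix.det_fin_two, h1]
    ring
  · simp [Matrix.mul_apply, Fin.sum_univ_two, Matrix.det_fin_two, h1]
    ring
  · simp [Matrix.mul_apply, Fin.sum_univ_two, Matrix.det_fin_two, h1]
    ring
  · simp [Matrix.mul_apply, Fin.sum_univ_two, Matrix.det_fin_two, h1]
    ring

theorem efe (e f : Matrix (Fin 2) (Fin 2) F) (he : e * e = 0) (h1 : e * f + f * e = 1) :
    e * f * e = e := by
  have h3 : e * (e * f + f * e) = (e * e) * f + e * f * e := by noncomm_ring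
  rw [h1, he, zero_mul, zero_add, mul_one] at h3
  exact h3.symm

theorem fef (e f : Matrix (Fin 2) (Fin 2) F) (hf : f * f = 0) (h1 : e * f + f * e = 1) :
    f * e * f = f := by
  have h3 : f * (e * f + f * e) = f * e * f + (f * f) * e := by noncomm_ring
  rw [h1, hf, zero_mul, add_zero, mul_one] at h3
  exact h3.symm

theorem sqh (e f : Matrix (Fin 2) (Fin 2) F) (he : e * e = 0) (hf : f * f = 0)
    (h1 : e * f + f * e = 1) (a b c : F) :
    (a • (e * f - f * e) + b • e + c • f) * (a • (e * f - f * e) + b • e + c • f) =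
      (a * a + b * c) • (1 : Matrix (Fin 2) (Fin 2) F) := by
  have h2 := efe e f he h1
  have h3 := fef e f hf h1
  have hh : (e * f - f * e) * (e * f - f * e) = 1 := by
    calc (e * f - f * e) * (e * f - f * e) = (e * f * e) * f - e * (f * f) * e - f * (e * e) * f +
          (f * e * f) * e := by noncomm_ring
      _ = e * f - 0 - 0 + f * e := by rw [h2, h3, hf, he]; simp
      _ = 1 := by rw [sub_zero, sub_zero, h1]
  have heh : (e * f - f * e) * e = e := by
    calc (e * f - f * e) * e = e * f * e - f * (e * e) := by noncomm_ring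
      _ = e := by rw [h2, he, mul_zero, sub_zero]
  have heh' : e * (e * f - f * e) = -e := by
    calc e * (e * f - f * e) = (e * e) * f - e * f * e := by noncomm_ring
      _ = -e := by rw [h2, he, zero_mul, zero_sub]
  have hfh : (e * f - f * e) * f = -f := by
    calc (e * f - f * e) * f = e * (f * f) - f * e * f := by noncomm_ring
      _ = -f := by rw [h3, hf, mul_zero, zero_sub]
  have hfh' : f * (e * f - f * e) = f := by
    calc f * (e * f - f * e) = f * e * f - (f * f) * e := by noncomm_ring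
      _ = f := by rw [h3, hf, zero_mul, sub_zero]
  generalize hH : e * f - f * e = H at hh heh heh' hfh hfh'
  have hfe : f * e = 1 - e * f := by rw [← h1]; abel
  simp only [mul_add, add_mul, smul_mul_assoc, mul_smul_comm, hh, heh, heh', hfh, hfh',
    he, hf, hfe, smul_neg, smul_zero, smul_sub]
  module

theorem dec (e f Z : Matrix (Fin 2) (Fin 2) F) (he : e * e = 0) (hf : f * f = 0)
    (h1 : e * f + f * e = 1) (hZ : Z.trace = 0) :
    Z = (Z * (e * f)).trace • (e * f - f * e) + (Z * f).trace • e + (Z * e).trace • f := by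
  have hde : e.det = 0 := by
    have h := congrArg Matrix.det he
    rw [Matrix.det_mul, Matrix.det_zero] at h
    exact mul_self_eq_zero.1 h
  have hdf : f.det = 0 := by
    have h := congrArg Matrix.det hf
    rw [Matrix.det_mul, Matrix.det_zero] at h
    exact mul_self_eq_zero.1 h
  have hefe := efe e f he h1
  have hfef := fef e f hf h1
  have key : (e * f + f * e) * Z * (e * f + f * e) = (e * f) * Z * (e * f) + e * (f * Z * f) * e
      + f * (e * Z * e) * f + (f * e) * Z * (f * e) := by noncomm_ring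
  rw [h1, one_mul, mul_one] at key
  have hp : (e * f).det = 0 := by rw [Matrix.det_mul, hde, zero_mul]
  have hq : (f * e).det = 0 := by rw [Matrix.det_mul, hde, mul_zero]
  rw [rk1 (e * f) Z hp, rk1 (f * e) Z hq, rk1 f Z hdf, rk1 e Z hde] at key
  have e1 : e * ((Z * f).trace • f) * e = (Z * f).trace • e := by
    rw [Matrix.mul_smul, Matrix.smul_mul, hefe]
  have e2 : f * ((Z * e).trace • e) * f = (Z * e).trace • f := by
    rw [Matrix.mul_smul, Matrix.smul_mul, hfef]
  rw [e1, e2] at key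
  have htr : (Z * (f * e)).trace = -(Z * (e * f)).trace := by
    have h : (Z * (e * f)).trace + (Z * (f * e)).trace = 0 := by
      rw [← Matrix.trace_add, ← Matrix.mul_add, h1, Matrix.mul_one, hZ]
    linear_combination h
  rw [htr] at key
  rw [smul_sub]
  calc Z = (Z * (e * f)).trace • (e * f) + (Z * f).trace • e + (Z * e).trace • f +
        -(Z * (e * f)).trace • (f * e) := key
    _ = _ := by
      rw [neg_smul]
      abel

end two

section comm

variable {F m : Type*} [Field F] [Fintype m] [DecidableEq m]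

theorem comm_sq (V V' E : Matrix m m F) (c : F) (hV : V' * V = 1) (h : V * E * V' = c • E) :
    V * (E * E) = (c * c) • (E * E * V) := by
  have h1 : V * E = c • (E * V) := by
    calc V * E = V * E * (V' * V) := by rw [hV, mul_one]
      _ = (V * E * V') * V := by simp only [mul_assoc]
      _ = c • (E * V) := by rw [h, smul_mul_assoc]
  calc V * (E * E) = (V * E) * E := (mul_assoc _ _ _).symm
    _ = c • ((E * V) * E) := by rw [h1, smul_mul_assoc]
    _ = c • (E * (V * E)) := by rw [mul_assoc]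
    _ = c • (E * (c • (E * V))) := by rw [h1]
    _ = (c * c) • (E * E * V) := by rw [mul_smul_comm, smul_smul, mul_assoc]

theorem conj_smul (A B e : Matrix m m F) (α β : F) (hβ : β ≠ 0) (hAB : A * B = 1)
    (h : β • (A * e) = α • (e * A)) : A * e * B = (α / β) • e := by
  have h1 : A * e = (α / β) • (e * A) := by
    calc A * e = β⁻¹ • (β • (A * e)) := by rw [smul_smul, inv_mul_cancel₀ hβ, one_smul]
      _ = (α / β) • (e * A) := by rw [h, smul_smul, div_eq_inv_mul]
  rw [h1, smul_mul_assoc, mul_assoc, hAB, mul_one]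

theorem proj_one (P : Matrix m m F) (hP : P * P = P) (hP0 : P ≠ 0)
    (h : LinearMap.range P.mulVecLin = ⊥ ∨ LinearMap.range P.mulVecLin = ⊤) : P = 1 := by
  rcases h with h | h
  · exfalso
    apply hP0
    have h1 := LinearMap.range_eq_bot.1 h
    apply Matrix.toLin'.injective
    rw [map_zero]
    exact h1
  · apply Matrix.toLin'.injective
    rw [Matrix.toLin'_one]
    apply LinearMap.ext
    intro y
    have hy : y ∈ LinearMap.range P.mulVecLin := by rw [h]; exact Submodule.mem_top
    obtain ⟨x, rfl⟩ := hy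
    rw [Matrix.toLin'_apply, LinearMap.id_apply, Matrix.mulVecLin_apply, Matrix.mulVec_mulVec, hP]

end comm

theorem MIN.{u, v, w} (hEIG : EIG_stmt.{u, w}) (hTRI : TRI_stmt.{u})
    (hSLT : SLT_stmt.{u, max u w}) (hALG : ALG_stmt.{u, max u w}) : MIN_stmt.{u, v, w} := by
  intro F Γ m _ _ _ _ _ _ W ρ hirr σ hσ hequi hσ0 g α β hchar hαβ hroots
  obtain ⟨e, f, he, hf, h1, hAe, hAf⟩ := hTRI (ρ g) α β hchar hαβ
  have hρinv : ∀ g, ρ g * ρ g⁻¹ = 1 := fun g => by rw [← map_mul, mul_inv_cancel, map_one]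
  have hρinv' : ∀ g, ρ g⁻¹ * ρ g = 1 := fun g => by rw [← map_mul, inv_mul_cancel, map_one]
  have hWinv : ∀ g, W g * W g⁻¹ = 1 := fun g => by rw [← map_mul, mul_inv_cancel, map_one]
  have hWinv' : ∀ g, W g⁻¹ * W g = 1 := fun g => by rw [← map_mul, inv_mul_cancel, map_one]
  have hαβ0 : α * β ≠ 0 := by
    have hdet : (ρ g).det = α * β := by
      rw [Matrix.det_eq_sign_charpoly_coeff, hchar]
      simp [Polynomial.coeff_zero_eq_eval_zero]
    rw [← hdet]
    have h2 : (ρ g).det * (ρ g⁻¹).det = 1 := by rw [← Matrix.det_mul, hρinv, Matrix.det_one]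
    exact left_ne_zero_of_mul_eq_one h2
  have hα : α ≠ 0 := left_ne_zero_of_mul hαβ0
  have hβ : β ≠ 0 := right_ne_zero_of_mul hαβ0
  have hce : W g * σ e * W g⁻¹ = (α / β) • σ e := by
    rw [hequi, conj_smul (ρ g) (ρ g⁻¹) e α β hβ (hρinv g) hAe, map_smul]
  have hcf : W g * σ f * W g⁻¹ = (β / α) • σ f := by
    rw [hequi, conj_smul (ρ g) (ρ g⁻¹) f β α hα (hρinv g) hAf, map_smul]
  have hEE : σ e * σ e = 0 := by
    by_contra hne
    obtain ⟨γ, hγ, hγ'⟩ := hEIG (W g) (σ e * σ e) _
      (comm_sq (W g) (W g⁻¹) (σ e) _ (hWinv' g) hce) hne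
    apply hroots γ _ hγ hγ'
    field_simp
  have hFF : σ f * σ f = 0 := by
    by_contra hne
    obtain ⟨γ, hγ, hγ'⟩ := hEIG (W g) (σ f * σ f) _
      (comm_sq (W g) (W g⁻¹) (σ f) _ (hWinv' g) hcf) hne
    apply hroots _ γ hγ' hγ
    field_simp
  have hefe := efe e f he h1
  have hfef := fef e f hf h1
  have hσh : σ (e * f - f * e) = σ e * σ f - σ f * σ e := hσ.lie e f
  have hc1 : (e * f - f * e) * e - e * (e * f - f * e) = (2 : F) • e := by
    calc (e * f - f * e) * e - e * (e * f - f * e) = e * f * e + e * f * e - f * (e * e) -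
          (e * e) * f := by noncomm_ring
      _ = (2 : F) • e := by rw [hefe, he, mul_zero, zero_mul, sub_zero, sub_zero, two_smul]
  have hc2 : (e * f - f * e) * f - f * (e * f - f * e) = (-2 : F) • f := by
    calc (e * f - f * e) * f - f * (e * f - f * e) = e * (f * f) + (f * f) * e -
          (f * e * f + f * e * f) := by noncomm_ring
      _ = (-2 : F) • f := by
        rw [hfef, hf, mul_zero, zero_mul, zero_add, zero_sub, neg_smul, two_smul]
  have hr1 : (σ e * σ f - σ f * σ e) * σ e - σ e * (σ e * σ f - σ f * σ e) = (2 : F) • σ e := by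
    rw [← hσh, ← hσ.lie, hc1, map_smul]
  have hr2 : (σ e * σ f - σ f * σ e) * σ f - σ f * (σ e * σ f - σ f * σ e) =
      (-2 : F) • σ f := by
    rw [← hσh, ← hσ.lie, hc2, map_smul]
  obtain ⟨hPP, hPspan, hPsq⟩ := hSLT (σ e) (σ f) hr1 hr2 hEE hFF
  generalize hPdef : σ e * σ f + σ f * σ e = P at hPP hPspan hPsq
  have hdec : ∀ Z : Matrix (Fin 2) (Fin 2) F, Z.trace = 0 → ∃ a b c : F,
      Z = a • (e * f - f * e) + b • e + c • f ∧
      σ Z = a • (σ e * σ f - σ f * σ e) + b • σ e + c • σ f := by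
    intro Z hZ
    have h := dec e f Z he hf h1 hZ
    refine ⟨_, _, _, h, ?_⟩
    conv_lhs => rw [h]
    rw [map_add, map_add, map_smul, map_smul, map_smul, hσh]
  have hsq : ∀ Z : Matrix (Fin 2) (Fin 2) F, Z.trace = 0 → σ Z * σ Z = (-Z.det) • P := by
    intro Z hZ
    obtain ⟨a, b, c, h2, h3⟩ := hdec Z hZ
    rw [h3, hPsq a b c]
    have h4 := sq2 Z hZ
    have h5 := sqh e f he hf h1 a b c
    rw [← h2] at h5
    have h6 := h5.symm.trans h4
    have h7 := congrFun (congrFun h6 0) 0
    simp only [Matrix.smul_apply, Matrix.one_apply_eq, smul_eq_mul, mul_one] at h7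
    rw [h7]
  have hh0 : (e * f - f * e).trace = 0 := by
    rw [Matrix.trace_sub, Matrix.trace_mul_comm, sub_self]
  have hdeth : -(e * f - f * e).det = 1 := by
    have h4 := sq2 (e * f - f * e) hh0
    have h5 := sqh e f he hf h1 1 0 0
    simp only [one_smul, zero_smul, add_zero, mul_one, mul_zero] at h5
    have h7 := congrFun (congrFun (h5.symm.trans h4) 0) 0
    simp only [Matrix.smul_apply, Matrix.one_apply_eq, smul_eq_mul, mul_one] at h7
    exact h7.symm
  have hcomm : ∀ g', W g' * P * W g'⁻¹ = P := by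
    intro g'
    have t1 : (ρ g' * (e * f - f * e) * ρ g'⁻¹).trace = 0 := by
      rw [Matrix.trace_mul_comm, ← mul_assoc, hρinv', one_mul, hh0]
    have d1 : (ρ g' * (e * f - f * e) * ρ g'⁻¹).det = (e * f - f * e).det := by
      have h2 : (ρ g').det * (ρ g'⁻¹).det = 1 := by
        rw [← Matrix.det_mul, hρinv, Matrix.det_one]
      rw [Matrix.det_mul, Matrix.det_mul]
      calc (ρ g').det * (e * f - f * e).det * (ρ g'⁻¹).det
          = ((ρ g').det * (ρ g'⁻¹).det) * (e * f - f * e).det := by ring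
        _ = (e * f - f * e).det := by rw [h2, one_mul]
    have h2 := hsq _ t1
    rw [d1, hdeth, one_smul, ← hequi] at h2
    have h3 := hsq _ hh0
    rw [hdeth, one_smul] at h3
    calc W g' * P * W g'⁻¹ = W g' * (σ (e * f - f * e) * σ (e * f - f * e)) * W g'⁻¹ := by
          rw [h3]
      _ = W g' * σ (e * f - f * e) * (W g'⁻¹ * W g') * σ (e * f - f * e) * W g'⁻¹ := by
          rw [hWinv', mul_one]
          simp only [mul_assoc]
      _ = W g' * σ (e * f - f * e) * W g'⁻¹ * (W g' * σ (e * f - f * e) * W g'⁻¹) := by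
          simp only [mul_assoc]
      _ = P := h2
  have hcomm' : ∀ g', W g' * P = P * W g' := by
    intro g'
    calc W g' * P = W g' * P * (W g'⁻¹ * W g') := by rw [hWinv', mul_one]
      _ = (W g' * P * W g'⁻¹) * W g' := by simp only [mul_assoc]
      _ = P * W g' := by rw [hcomm]
  have htr0 : ∀ Z : Matrix (Fin 2) (Fin 2) F,
      (Z - (Z.trace / 2) • (1 : Matrix (Fin 2) (Fin 2) F)).trace = 0 := by
    intro Z
    rw [Matrix.trace_sub, Matrix.trace_smul, Matrix.trace_one, Fintype.card_fin, smul_eq_mul]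
    push_cast
    field_simp
    ring
  have hspl : ∀ Z : Matrix (Fin 2) (Fin 2) F, Z = (Z.trace / 2) • (1 : Matrix (Fin 2) (Fin 2) F) +
      (Z - (Z.trace / 2) • (1 : Matrix (Fin 2) (Fin 2) F)) := by
    intro Z
    abel
  have hP0 : P ≠ 0 := by
    intro hP
    apply hσ0
    apply LinearMap.ext
    intro Z
    rw [LinearMap.zero_apply, hspl Z, map_add, map_smul, hσ.one, smul_zero, zero_add]
    obtain ⟨a, b, c, _, h3⟩ := hdec _ (htr0 Z)
    have hmem : σ (Z - (Z.trace / 2) • (1 : Matrix (Fin 2) (Fin 2) F)) ∈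
        Submodule.span F {σ e, σ f, σ e * σ f - σ f * σ e} := by
      rw [h3]
      refine Submodule.add_mem _ (Submodule.add_mem _ ?_ ?_) ?_
      · exact Submodule.smul_mem _ _ (Submodule.subset_span (by simp))
      · exact Submodule.smul_mem _ _ (Submodule.subset_span (by simp))
      · exact Submodule.smul_mem _ _ (Submodule.subset_span (by simp))
    have h4 := (hPspan _ hmem).1
    rw [hP, zero_mul] at h4
    exact h4.symm
  have hP1 : P = 1 := by
    apply proj_one P hPP hP0
    apply hirr.2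
    rintro g' _ ⟨x, rfl⟩
    refine ⟨W g' *ᵥ x, ?_⟩
    rw [Matrix.mulVecLin_apply, Matrix.mulVecLin_apply, Matrix.mulVec_mulVec,
      Matrix.mulVec_mulVec, hcomm']
  obtain ⟨Φ, hΦ⟩ := hALG σ hσ (fun Z hZ => by rw [hsq Z hZ, hP1])
  refine ⟨Φ, hΦ, fun g' Z => ?_⟩
  have hΦ1 : ∀ c : F, Φ (c • (1 : Matrix (Fin 2) (Fin 2) F)) = c • (1 : Matrix m m F) := by
    intro c
    rw [map_smul, map_one]
  have e1 : W g' * Φ Z * W g'⁻¹ = (Z.trace / 2) • (1 : Matrix m m F) +
      σ (ρ g' * (Z - (Z.trace / 2) • (1 : Matrix (Fin 2) (Fin 2) F)) * ρ g'⁻¹) := by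
    conv_lhs => rw [hspl Z]
    rw [map_add, hΦ1, hΦ _ (htr0 Z), mul_add, add_mul, mul_smul_comm, smul_mul_assoc, mul_one,
      hWinv, hequi]
  have t2 : (ρ g' * (Z - (Z.trace / 2) • (1 : Matrix (Fin 2) (Fin 2) F)) * ρ g'⁻¹).trace = 0 := by
    rw [Matrix.trace_mul_comm, ← mul_assoc, hρinv', one_mul, htr0]
  have e2 : ρ g' * Z * ρ g'⁻¹ = (Z.trace / 2) • (1 : Matrix (Fin 2) (Fin 2) F) +
      ρ g' * (Z - (Z.trace / 2) • (1 : Matrix (Fin 2) (Fin 2) F)) * ρ g'⁻¹ := by
    conv_lhs => rw [hspl Z]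
    rw [mul_add, add_mul, mul_smul_comm, smul_mul_assoc, mul_one, hρinv]
  rw [e1, e2, map_add, hΦ1, hΦ _ t2]

end Pool.Agent.RG.MIN
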