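import Pool.Agent.helper67.RG.Spec

/-! Row WEX of rg: additive functions separate elements of infinite order. -/

namespace Pool.Agent.RG.WEX

open TensorProduct

theorem hom_ne {A : Type*} [AddCommGroup A] (c : A) (hc : ∀ k : ℕ, 0 < k → k • c ≠ 0) :
    ∃ φ : A →+ ℚ, φ c ≠ 0 := by
  have hloc : IsLocalizedModule (nonZeroDivisors ℤ) (TensorProduct.mk ℤ ℚ A 1) :=
    (isLocalizedModule_iff_isBaseChange (nonZeroDivisors ℤ) ℚ (TensorProduct.mk ℤ ℚ A 1)).2
      (TensorProduct.isBaseChange ℤ A ℚ)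
  have hne : TensorProduct.mk ℤ ℚ A 1 c ≠ 0 := by
    intro h
    obtain ⟨s, hs⟩ := (IsLocalizedModule.eq_zero_iff (nonZeroDivisors ℤ)
      (TensorProduct.mk ℤ ℚ A 1)).1 h
    have hs0 : (s : ℤ) ≠ 0 := nonZeroDivisors.ne_zero s.2
    have hs1 : (s : ℤ) • c = 0 := hs
    have hs2 : ((s : ℤ).natAbs) • c = 0 := by
      rcases Int.natAbs_eq (s : ℤ) with h1 | h1
      · rw [h1, natCast_zsmul] at hs1
        exact hs1
      · rw [h1, neg_smul, natCast_zsmul, neg_eq_zero] at hs1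
        exact hs1
    exact hc _ (Int.natAbs_pos.2 hs0) hs2
  obtain ⟨φ, hφ⟩ : ∃ φ : Module.Dual ℚ (ℚ ⊗[ℤ] A), φ (TensorProduct.mk ℤ ℚ A 1 c) ≠ 0 := by
    by_contra hcon
    apply hne
    rw [← Module.forall_dual_apply_eq_zero_iff ℚ]
    intro φ
    by_contra h1
    exact hcon ⟨φ, h1⟩
  exact ⟨φ.toAddMonoidHom.comp (TensorProduct.mk ℤ ℚ A 1).toAddMonoidHom, hφ⟩

theorem WEX : WEX_stmt := by
  intro F _ _ c hc hk
  obtain ⟨φ, hφ⟩ := hom_ne (Additive.ofMul (Units.mk0 c hc)) (fun k hk0 h => by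
    have h1 : Additive.ofMul ((Units.mk0 c hc) ^ k) = Additive.ofMul (1 : Fˣ) := h
    have h2 : (Units.mk0 c hc) ^ k = 1 := h1
    have h3 := congrArg Units.val h2
    rw [Units.val_pow_eq_pow_val, Units.val_mk0, Units.val_one] at h3
    exact hk k hk0 h3)
  classical
  refine ⟨fun x => if h : x = 0 then 0 else ((φ (Additive.ofMul (Units.mk0 x h)) : ℚ) : F),
    ?_, ?_⟩
  · intro x y hx hy
    have hxy : x * y ≠ 0 := mul_ne_zero hx hy
    simp only [dif_neg hx, dif_neg hy, dif_neg hxy]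
    rw [Units.mk0_mul, ofMul_mul, map_add, Rat.cast_add]
  · simp only [dif_neg hc]
    exact Rat.cast_ne_zero.2 hφ

end Pool.Agent.RG.WEX
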